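import Mathlib
import Pool.Agent.AreaRig.Rigid

open MeasureTheory Metric

set_option autoImplicit false

namespace Pool.Agent.Results.MP_d3c7f3_an.AreaRigidity

/-- Let `f` be a sense-preserving harmonic self-mapping of the unit disc (univalence is not needed).
If `f` preserves the area of some concentric disc of radius `0 < r < 1`, then `f` is a rotation;
in particular it is a conformal automorphism of the disc. -/
theorem result (f : ℂ → ℂ)
    (hharm : InnerProductSpace.HarmonicOnNhd f (ball (0 : ℂ) 1))
    (hmaps : Set.MapsTo f (ball (0 : ℂ) 1) (ball (0 : ℂ) 1))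
    (hsense : ∀ z ∈ ball (0 : ℂ) 1, 0 < (fderiv ℝ f z).det)
    (r : ℝ) (hr : 0 < r) (hr1 : r < 1)
    (harea : volume (f '' ball (0 : ℂ) r) = volume (ball (0 : ℂ) r)) :
    ∃ θ : ℝ, ∀ z ∈ ball (0 : ℂ) 1, f z = Complex.exp (θ * Complex.I) * z :=
  Pool.Agent.AreaRig.rigidity hharm hmaps hsense hr hr1 harea

end Pool.Agent.Results.MP_d3c7f3_an.AreaRigidity
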